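import Mathlib
import Pool.Agent.Q7.QuatHamMain

/-!
# Every invariant `HA`-neutral subspace extends to invariant maximal `HA`-nonnegative and
nonpositive subspaces
-/

set_option autoImplicit false

namespace Pool.Agent.Results.MP_377342_al.ExtendNeutral

open Quaternion Matrix Q7.QuatHam

/-- Let `H` be an invertible skewhermitian quaternion matrix and let `A` be `H`-Hamiltonian. Then
every `A`-invariant `HA`-neutral subspace `N` is contained in an `A`-invariant maximal
`HA`-nonnegative subspace and in an `A`-invariant maximal `HA`-nonpositive subspace. -/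
theorem result (n : ℕ) (H A : Matrix (Fin n) (Fin n) ℍ[ℝ]) (_ : IsUnit H) (hH : Hᴴ = -H)
    (hA : H * A = -(Aᴴ * H)) (N : Submodule ℍ[ℝ]ᵐᵒᵖ (Fin n → ℍ[ℝ])) (hN : IsInvariant A N)
    (hN0 : IsNeutral (starForm (H * A)) N) :
    (∃ L, N ≤ L ∧ IsInvariant A L ∧ IsMaxNonneg (starForm (H * A)) L) ∧
      ∃ L, N ≤ L ∧ IsInvariant A L ∧ IsMaxNonpos (starForm (H * A)) L :=
  q1 hH hA hN hN0

end Pool.Agent.Results.MP_377342_al.ExtendNeutral
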