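import Mathlib
import Pool.Agent.Q7.QuatHamMain

/-!
# Extension of invariant `HA`-neutral subspaces with prescribed eigenvalues off the imaginary axis
-/

set_option autoImplicit false

namespace Pool.Agent.Results.MP_377342_al.ExtendSpectrum

open Quaternion Matrix Q7.QuatHam

/-- Let `H` be an invertible skewhermitian quaternion matrix, let `A` be `H`-Hamiltonian, and let
`N` be an `A`-invariant `HA`-neutral subspace such that the set `S₀` of eigenvalues of `A|N` with
nonzero real part contains no two opposite quaternions. Then for every c-set `S ⊇ S₀` of `A` there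
are `A`-invariant subspaces `L₊, L₋ ⊇ N`, maximal `HA`-nonnegative and maximal `HA`-nonpositive
respectively, such that the set of eigenvalues of `A|L₊` (of `A|L₋`) with nonzero real part
equals `S`. -/
theorem result (n : ℕ) (H A : Matrix (Fin n) (Fin n) ℍ[ℝ]) (hHu : IsUnit H) (hH : Hᴴ = -H)
    (hA : H * A = -(Aᴴ * H)) (N : Submodule ℍ[ℝ]ᵐᵒᵖ (Fin n → ℍ[ℝ])) (hN : IsInvariant A N)
    (hN0 : IsNeutral (starForm (H * A)) N)
    (_ : ∀ l ∈ offAxisEigenvalues A N, -l ∉ offAxisEigenvalues A N)
    (S : Set ℍ[ℝ]) (hS : IsCSet A S) (hS0 : offAxisEigenvalues A N ⊆ S) :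
    (∃ L, N ≤ L ∧ IsInvariant A L ∧ IsMaxNonneg (starForm (H * A)) L ∧
      offAxisEigenvalues A L = S) ∧
      ∃ L, N ≤ L ∧ IsInvariant A L ∧ IsMaxNonpos (starForm (H * A)) L ∧
        offAxisEigenvalues A L = S :=
  q2 hHu hH hA hN hN0 hS hS0

end Pool.Agent.Results.MP_377342_al.ExtendSpectrum
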